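import Pool.Agent.Helper29.ZR.Props
import Pool.Agent.Helper12.UG.VarR
import Pool.Agent.Helper10.RC.Homs

/-!
# MP_b55b7c_an: an inequality in the crossed product gives an inequality in `A` (ZR-CompX)
-/

open scoped ENNReal NNReal InnerProductSpace ComplexOrder
open Filter Topology

attribute [-instance] CStarMatrix.instAlgebra CStarMatrix.instModule CStarMatrix.instSMul
  CStarMatrix.instMulAction CStarMatrix.instDistribMulAction

noncomputable section
namespace RC
universe u

set_option linter.unusedSectionVars false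

namespace H75CX
open H19Cross H12VR

section
variable {A : Type u} [CStarAlgebra A] [PartialOrder A] [StarOrderedRing A]

theorem ent_nonneg {T : CStarMatrix Unit Unit A} (hT : 0 ≤ T) : 0 ≤ T () () := by
  obtain ⟨S, rfl⟩ := CStarAlgebra.nonneg_iff_eq_star_mul_self.1 hT
  rw [CStarMatrix.mul_apply]
  simp only [Finset.univ_unique, PUnit.default_eq_unit, Finset.sum_singleton,
    CStarMatrix.star_apply]
  exact star_mul_self_nonneg _

theorem ent_mono {S T : CStarMatrix Unit Unit A} (h : S ≤ T) : S () () ≤ T () () := by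
  rw [← sub_nonneg]
  exact ent_nonneg (sub_nonneg.2 h)

theorem one1_ent (T : CStarMatrix Unit Unit A) : one1 (T () ()) = T := by
  ext i j
  rfl

theorem one1_mono' {a b : A} (h : a ≤ b) : one1 a ≤ one1 b := by
  rw [← sub_nonneg]
  have := one1_nonneg (sub_nonneg.2 h)
  exact this

variable {G : Type} [Group G] [Fintype G] [DecidableEq G]
  {R : Type u} [CStarAlgebra R] [PartialOrder R] [StarOrderedRing R]
  {α : G → A ≃⋆ₐ[ℂ] A} {k : A →⋆ₐ[ℂ] R} {w : G → R}

theorem cf_left (hc : IsCross α k w) (a : A) (r : R) (x : G) :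
    cf hc (k a * r) x = a * cf hc r x := by
  rw [cf_unique hc (f := fun g => a * cf hc r g)]
  conv_lhs => rw [cf_spec hc r]
  rw [Finset.mul_sum]
  apply Finset.sum_congr rfl
  intro g _
  rw [map_mul, mul_assoc]

theorem ce_star_mul (ha : IsAct α) (hc : IsCross α k w) (r s : R) :
    ce hc (star r * s) = ∑ t, star (α t (cf hc r t⁻¹)) * α t (cf hc s t⁻¹) := by
  rw [ce_apply, cf_mul ha hc]
  apply Finset.sum_congr rfl
  intro t _
  rw [cf_star ha hc, mul_one, map_star]

theorem ce_rsmul_one (hc : IsCross α k w) (δ : ℝ) : ce hc (δ • (1 : R)) = δ • (1 : A) := by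
  rw [← Complex.coe_smul, map_smul, ce_one, Complex.coe_smul]

variable {ν : Type} [Fintype ν] [DecidableEq ν]

/-- the columns -/
def vv (hc : IsCross α k w) (y : CStarMatrix ν Unit R) (t : G) : CStarMatrix ν Unit A :=
  CStarMatrix.ofMatrix (Matrix.of fun i _ => α t (cf hc (y i ()) t⁻¹))

theorem ce_quad (ha : IsAct α) (hc : IsCross α k w) (b : CStarMatrix ν ν A)
    (hinv : ∀ g, mp (α g) b = b) (y : CStarMatrix ν Unit R) :
    ce hc ((y.conjTranspose * mp k b * y) () ()) =
      ∑ t, ((vv hc y t).conjTranspose * b * vv hc y t) () () := by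
  have hb : ∀ (g : G) i j, α g (b i j) = b i j := by
    intro g i j
    have := congrFun (congrFun (hinv g) i) j
    exact this
  have h1 : (y.conjTranspose * mp k b * y) () () =
      ∑ j, ∑ i, star (y i ()) * (k (b i j) * y j ()) := by
    rw [CStarMatrix.mul_apply]
    apply Finset.sum_congr rfl
    intro j _
    rw [CStarMatrix.mul_apply, Finset.sum_mul]
    apply Finset.sum_congr rfl
    intro i _
    rw [mul_assoc]
    rfl
  have h2 : ∀ t : G, ((vv hc y t).conjTranspose * b * vv hc y t) () () =
      ∑ j, ∑ i, star (α t (cf hc (y i ()) t⁻¹)) * (b i j * α t (cf hc (y j ()) t⁻¹)) := by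
    intro t
    rw [CStarMatrix.mul_apply]
    apply Finset.sum_congr rfl
    intro j _
    rw [CStarMatrix.mul_apply, Finset.sum_mul]
    apply Finset.sum_congr rfl
    intro i _
    rw [mul_assoc]
    rfl
  rw [h1]
  simp only [h2, map_sum, ce_star_mul ha hc, cf_left hc, map_mul, hb]
  rw [Finset.sum_comm]
  rw [Finset.sum_comm (s := Finset.univ (α := G))]
  rw [Finset.sum_comm]
  apply Finset.sum_congr rfl
  intro i _
  rw [Finset.sum_comm]

theorem jh_inj (ha : IsAct α) (hc : IsCross α k w) : Function.Injective (jh ha hc) := by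
  intro r s hrs
  rw [jh_apply, jh_apply] at hrs
  have h1 : cf hc r = cf hc s := by
    funext x
    have h2 : jf hc r 1 x⁻¹ = jf hc s 1 x⁻¹ := by rw [hrs]
    rw [jf_apply, jf_apply] at h2
    simpa [act_one ha] using h2
  rw [cf_spec hc r, cf_spec hc s, h1]

theorem cu_corner (T : CStarMatrix G G A) (g : G) : Cu (one1 (T g g)) T := by
  intro ε hε
  refine ⟨CStarMatrix.ofMatrix (Matrix.of fun _ h => if h = g then 1 else 0), ?_⟩
  have : (CStarMatrix.ofMatrix (Matrix.of fun _ h => if h = g then 1 else 0) :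
      CStarMatrix Unit G A) * T *
      (CStarMatrix.ofMatrix (Matrix.of fun _ h => if h = g then 1 else 0) :
      CStarMatrix Unit G A).conjTranspose = one1 (T g g) := by
    ext i j
    rw [CStarMatrix.mul_apply, Finset.sum_eq_single g]
    · rw [CStarMatrix.mul_apply, Finset.sum_eq_single g]
      · simp
        rfl
      · intro b _ hb
        simp [hb]
      · intro h
        exact absurd (Finset.mem_univ _) h
    · intro b _ hb
      simp [hb]
    · intro h
      exact absurd (Finset.mem_univ _) h
  rw [this, sub_self, norm_zero]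
  exact hε

end

end H75CX

open H19Cross H12VR H75CX in
/-- An inequality in the crossed product gives an inequality in `A`. -/
theorem compXP_75 (hM : QMonoP.{u}) (hT : MatTP.{u}) (hQ : QPullP.{u}) : CompXP.{u} := by
  classical
  intro A R _ _ _ _ _ _ G _ _ α k w ha hc ν _ _ b e y h δ hb hinv hh hle
  refine ⟨vv hc y, ce hc h, ce_nonneg ha hc hh, ?_, ?_⟩
  · have h1 := ce_mono ha hc (ent_mono hle)
    have h2 : (y.conjTranspose * mp k b * y + one1 h + δ • (1 : CStarMatrix Unit Unit R)) () () =
        (y.conjTranspose * mp k b * y) () () + h + δ • (1 : R) := by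
      rw [CStarMatrix.add_apply, CStarMatrix.add_apply, cm_smul_apply, CStarMatrix.one_apply_eq]
      rfl
    have h3 : (one1 (k e) : CStarMatrix Unit Unit R) () () = k e := rfl
    rw [h2, h3, ce_k, map_add, map_add, ce_quad ha hc b hinv, ce_rsmul_one] at h1
    have h4 := one1_mono' h1
    refine h4.trans (le_of_eq ?_)
    have h5 : one1 (∑ t, ((vv hc y t).conjTranspose * b * vv hc y t) () ()) =
        ∑ t, (vv hc y t).conjTranspose * b * vv hc y t := by
      have h6 : one1 (∑ t, ((vv hc y t).conjTranspose * b * vv hc y t) () ()) =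
          ∑ t, one1 (((vv hc y t).conjTranspose * b * vv hc y t) () ()) := map_sum one1H _ _
      rw [h6]
      simp only [one1_ent]
    have h7 : one1 (δ • (1 : A)) = δ • (1 : CStarMatrix Unit Unit A) := by
      have h8 : one1 (1 : A) = 1 := map_one one1H
      rw [← h8]
      rfl
    have h9 : ∀ a b : A, one1 (a + b) = one1 a + one1 b := fun _ _ => rfl
    rw [h9, h9, h5, h7]
  · intro φ σ hσ
    obtain ⟨ψ', σM, -, -, h1⟩ := (hT A G).2 φ σ hσ
    obtain ⟨ω, h2⟩ := hQ (CStarMatrix G G A) R (jh ha hc) (jh_inj ha hc) σM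
    refine ⟨ω, ?_⟩
    have h3 : 0 ≤ jh ha hc h := map_nonneg (jh ha hc) hh
    have h4 := h2 Unit (one1 h) (one1_nonneg hh)
    rw [mp_one1, h1 _ h3] at h4
    have h5 : ce hc h = jh ha hc h 1 1 := by
      rw [jh_apply, jf_apply, ce_apply, inv_one, act_one ha, mul_one]
    have h6 : σ.dim (one1 (ce hc h)) ≤ σ.dim (jh ha hc h) := by
      refine hM A σ Unit G _ _ (one1_nonneg (ce_nonneg ha hc hh)) h3 ?_
      rw [h5]
      exact cu_corner _ 1
    refine h6.trans (le_of_eq ?_)
    rw [h4]
    have : (Fintype.card G : ℝ) ≠ 0 := by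
      exact_mod_cast Fintype.card_ne_zero
    field_simp

end RC
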